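import Mathlib

/-!
# Ideals of norm `p` and roots modulo `p` (job J2 for MP_34cc05_nt)
-/

open Polynomial NumberField

namespace Pool.Agent.H9.Dyn

namespace J2

/-- two ring homomorphisms to `ZMod p` with the same kernel are equal -/
theorem hom_eq_of_ker_eq {R : Type*} [CommRing R] {p : ℕ} (f g : R →+* ZMod p)
    (h : RingHom.ker f = RingHom.ker g) : f = g := by
  ext x
  obtain ⟨n, hn⟩ := ZMod.intCast_surjective (f x)
  have h1 : x - (n : R) ∈ RingHom.ker f := by
    rw [RingHom.mem_ker, map_sub, map_intCast, hn, sub_self]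
  rw [h, RingHom.mem_ker, map_sub, map_intCast, sub_eq_zero] at h1
  rw [h1, hn]

variable {K : Type*} [Field K] [NumberField K]

theorem absNorm_ker {p : ℕ} [Fact p.Prime] (f : 𝓞 K →+* ZMod p) :
    Ideal.absNorm (RingHom.ker f) = p := by
  rw [Ideal.absNorm_apply, Submodule.cardQuot_apply]
  have e := RingHom.quotientKerEquivOfSurjective (ZMod.ringHom_surjective f)
  rw [Nat.card_congr e.toEquiv, Nat.card_zmod]

theorem exists_hom {p : ℕ} [Fact p.Prime] (I : Ideal (𝓞 K)) (hI : Ideal.absNorm I = p) :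
    ∃ f : 𝓞 K →+* ZMod p, RingHom.ker f = I := by
  have hp : p.Prime := Fact.out
  rw [Ideal.absNorm_apply, Submodule.cardQuot_apply] at hI
  have hfin : Finite (𝓞 K ⧸ I) := Nat.finite_of_card_ne_zero (by rw [hI]; exact hp.ne_zero)
  have := Fintype.ofFinite (𝓞 K ⧸ I)
  rw [Nat.card_eq_fintype_card] at hI
  let e := ZMod.ringEquivOfPrime (𝓞 K ⧸ I) hp hI
  refine ⟨e.symm.toRingHom.comp (Ideal.Quotient.mk I), ?_⟩
  ext x
  rw [RingHom.mem_ker, RingHom.comp_apply]
  show e.symm (Ideal.Quotient.mk I x) = 0 ↔ _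
  rw [map_eq_zero_iff _ e.symm.injective, Ideal.Quotient.eq_zero_iff_mem]

end J2

open J2

theorem card_norm_eq_card_roots {K : Type*} [Field K] [NumberField K] (θ : 𝓞 K) (p : ℕ)
    [Fact p.Prime] (hp : ¬ p ∣ RingOfIntegers.exponent θ) :
    Nat.card {I : Ideal (𝓞 K) // Ideal.absNorm I = p} =
      Nat.card {a : ZMod p // ((minpoly ℤ θ).map (Int.castRingHom (ZMod p))).IsRoot a} := by
  have h1 : Nat.card (𝓞 K →+* ZMod p) = Nat.card {I : Ideal (𝓞 K) // Ideal.absNorm I = p} := by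
    refine Nat.card_congr (Equiv.ofBijective (fun f => ⟨RingHom.ker f, absNorm_ker f⟩) ⟨?_, ?_⟩)
    · intro f g h
      exact hom_eq_of_ker_eq f g (congrArg Subtype.val h)
    · rintro ⟨I, hI⟩
      obtain ⟨f, hf⟩ := exists_hom I hI
      exact ⟨f, Subtype.ext hf⟩
  rw [← h1]
  have hev : ∀ (φ : 𝓞 K →+* ZMod p) (Q : ℤ[X]), φ (aeval θ Q) =
      (Q.map (Int.castRingHom (ZMod p))).eval (φ θ) := by
    intro φ Q
    rw [Polynomial.aeval_def, Polynomial.hom_eval₂, Polynomial.eval_map]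
    congr 1
    exact RingHom.ext_int _ _
  refine Nat.card_congr (Equiv.ofBijective (fun φ => ⟨φ θ, ?_⟩) ⟨?_, ?_⟩)
  · rw [Polynomial.IsRoot.def, ← hev, minpoly.aeval, map_zero]
  · intro φ ψ h
    have h2 : φ θ = ψ θ := congrArg Subtype.val h
    ext x
    obtain ⟨q, hq⟩ := Ideal.Quotient.mk_surjective
      ((RingOfIntegers.ZModXQuotSpanEquivQuotSpan hp).symm
        (Ideal.Quotient.mk (Ideal.span {(p : 𝓞 K)}) x))
    obtain ⟨Q, rfl⟩ := Polynomial.map_surjective (Int.castRingHom (ZMod p))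
      (ZMod.intCast_surjective) q
    have h3 := RingOfIntegers.ZModXQuotSpanEquivQuotSpan_mk_apply hp Q
    rw [hq, RingEquiv.apply_symm_apply, Ideal.Quotient.eq, Ideal.mem_span_singleton] at h3
    obtain ⟨y, hy⟩ := h3
    have h4 : x = aeval θ Q + p * y := by rw [← hy]; ring
    have h5 : ∀ χ : 𝓞 K →+* ZMod p, χ x = χ (aeval θ Q) := by
      intro χ
      rw [h4, map_add, map_mul, map_natCast]
      simp
    rw [h5, h5, hev, hev, h2]
  · rintro ⟨a, ha⟩
    set g := (minpoly ℤ θ).map (Int.castRingHom (ZMod p)) with hg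
    let χ : (ZMod p)[X] ⧸ Ideal.span {g} →+* ZMod p :=
      Ideal.Quotient.lift (Ideal.span {g}) (Polynomial.evalRingHom a) (by
        intro q hq
        rw [Ideal.mem_span_singleton] at hq
        obtain ⟨r, rfl⟩ := hq
        rw [map_mul, Polynomial.coe_evalRingHom, ha.eq_zero, zero_mul])
    let φ : 𝓞 K →+* ZMod p := (χ.comp
      ((RingOfIntegers.ZModXQuotSpanEquivQuotSpan hp).symm.toRingHom)).comp
        (Ideal.Quotient.mk (Ideal.span {(p : 𝓞 K)}))
    refine ⟨φ, Subtype.ext ?_⟩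
    show χ ((RingOfIntegers.ZModXQuotSpanEquivQuotSpan hp).symm
      (Ideal.Quotient.mk (Ideal.span {(p : 𝓞 K)}) θ)) = a
    have h3 := RingOfIntegers.ZModXQuotSpanEquivQuotSpan_mk_apply hp (X : ℤ[X])
    rw [aeval_X] at h3
    rw [← h3, RingEquiv.symm_apply_apply]
    show (Polynomial.evalRingHom a) (Polynomial.map (Int.castRingHom (ZMod p)) X) = a
    simp

theorem exponent_ne_zero {K : Type*} [Field K] [NumberField K] (θ : 𝓞 K)
    (h : IntermediateField.adjoin ℚ {(θ : K)} = ⊤) : RingOfIntegers.exponent θ ≠ 0 := by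
  have hint : IsIntegral ℚ (θ : K) := Algebra.IsIntegral.isIntegral _
  -- every integer has a multiple in `ℤ[θ]`
  have key : ∀ x : 𝓞 K, ∃ N : ℕ, 0 < N ∧ (N : 𝓞 K) * x ∈ Algebra.adjoin ℤ {θ} := by
    intro x
    have hx : (x : K) ∈ IntermediateField.adjoin ℚ {(θ : K)} := by rw [h]; trivial
    rw [← IntermediateField.mem_toSubalgebra,
      IntermediateField.adjoin_simple_toSubalgebra_of_isAlgebraic hint.isAlgebraic,
      Algebra.adjoin_singleton_eq_range_aeval] at hx
    obtain ⟨q, hq⟩ := hx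
    have hq' : aeval (θ : K) q = (x : K) := hq
    obtain ⟨b, hbm, hb⟩ := IsLocalization.integerNormalization_spec (nonZeroDivisors ℤ) q
    set Q := IsLocalization.integerNormalization (nonZeroDivisors ℤ) q
    have hb0 : b ≠ 0 := nonZeroDivisors.ne_zero hbm
    have h1 : (b : 𝓞 K) * x = aeval θ Q := by
      apply RingOfIntegers.coe_injective
      have h2 : algebraMap (𝓞 K) K (aeval θ Q) = aeval (θ : K) Q :=
        (Polynomial.aeval_algebraMap_apply K θ Q).symm
      rw [h2, ← Polynomial.aeval_map_algebraMap ℚ, hb, map_zsmul, hq', zsmul_eq_mul, map_mul,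
        map_intCast]
    have h3 : (b : 𝓞 K) * x ∈ Algebra.adjoin ℤ {θ} := by
      rw [h1]; exact Polynomial.aeval_mem_adjoin_singleton ℤ θ
    refine ⟨b.natAbs, Int.natAbs_pos.mpr hb0, ?_⟩
    rcases Int.natAbs_eq b with h4 | h4
    · have h5 : ((b.natAbs : ℕ) : 𝓞 K) = (b : 𝓞 K) := by
        conv_rhs => rw [h4]
        simp
      rw [h5]; exact h3
    · have h5 : ((b.natAbs : ℕ) : 𝓞 K) = -(b : 𝓞 K) := by
        conv_rhs => rw [h4]
        simp
      rw [h5, neg_mul]; exact neg_mem h3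
  choose N hN hN' using key
  let B := Module.Free.chooseBasis ℤ (𝓞 K)
  set D : ℕ := ∏ i, N (B i) with hD
  have hD0 : 0 < D := Finset.prod_pos fun i _ => hN _
  have hDB : ∀ i, (D : 𝓞 K) * B i ∈ Algebra.adjoin ℤ {θ} := by
    intro i
    obtain ⟨E, hE⟩ : N (B i) ∣ D := Finset.dvd_prod_of_mem _ (Finset.mem_univ i)
    have : (D : 𝓞 K) * B i = (E : 𝓞 K) * ((N (B i) : 𝓞 K) * B i) := by
      rw [hE]; push_cast; ring
    rw [this]
    exact mul_mem (natCast_mem _ _) (hN' _)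
  have hmem : (D : 𝓞 K) ∈ conductor ℤ θ := by
    rw [mem_conductor_iff]
    intro x
    rw [← B.sum_repr x, Finset.mul_sum]
    refine sum_mem fun i _ => ?_
    rw [mul_smul_comm]
    exact Subalgebra.smul_mem _ (hDB i) _
  rw [RingOfIntegers.exponent_eq_sInf]
  have hne : {d : ℕ | 0 < d ∧ (d : 𝓞 K) ∈ conductor ℤ θ}.Nonempty := ⟨D, hD0, hmem⟩
  exact (Nat.sInf_mem hne).1.ne'

end Pool.Agent.H9.Dyn
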